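import Pool.Agent.H752.GM.Final
import Pool.Agent.H640R2.GM.Stage
import Pool.Agent.H64R2.GM.Mark
import Pool.Agent.H674R2.GM.Seq
import Pool.Agent.H819R2.GM.ZMem
import Pool.Agent.H692R2.GM.Zmod
import Pool.Agent.H992R2.GM.Zpp

/-!
# How many oracles make `P` and `ZPP = RP ∩ coRP` different?

For every gauge `f`, the set of the oracles `A` with `P ≠ RP ∩ coRP` relative to `A` is a null set
for `f` if and only if, for some constant `C`, for all large `N` there is `N' ≥ N` with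
`f N' ≤ (log N) ^ C`. The same holds for every set of oracles between this one and the set of the
oracles with `P ≠ RP`.
-/

namespace Pool.Agent.Results.MP_34c247_lc.GaugeThreshold

open Pool.Agent.NPC Pool.Agent.H620R2.Gauge Pool.Agent.H752.GM Filter

theorem result (f : ℕ → ℝ) :
    (Null f {A : Oracle | ∃ L, IsRP A L ∧ IsRP A Lᶜ ∧ ¬ IsP A L} ↔
      ∃ C : ℕ, ∀ᶠ N : ℕ in atTop, ∃ N' ≥ N, f N' ≤ (Real.logb 2 N) ^ C) ∧
    ∀ O : Set Oracle, {A : Oracle | ∃ L, IsRP A L ∧ IsRP A Lᶜ ∧ ¬ IsP A L} ⊆ O →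
      O ⊆ {A : Oracle | ∃ L, IsRP A L ∧ ¬ IsP A L} →
      (Null f O ↔ ∃ C : ℕ, ∀ᶠ N : ℕ in atTop, ∃ N' ≥ N, f N' ≤ (Real.logb 2 N) ^ C) := by
  have h : St_zpp := t_zpp t_stage t_mark t_seq t_zmem t_zmod
  exact ⟨final_zpp h f _ subset_rfl (fun A ⟨L, h1, _, h3⟩ => ⟨L, h1, h3⟩),
    fun O h1 h2 => final_zpp h f O h1 h2⟩

end Pool.Agent.Results.MP_34c247_lc.GaugeThreshold
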