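import Mathlib
import Pool.Agent.H870R2.LS.ZZero
import Pool.Agent.H870R2.LS.ZNet
import Pool.Agent.H870R2.LS.ZProb

/-! The sign problem for products of sparse polynomials: zero-error symmetric networks. -/

namespace Pool.Agent.H870R2.PC

open H522R2.LS MvPolynomial

/-- **The sign problem by symmetric networks that are never wrong.** -/
theorem _root_.Pool.Agent.Results.MP_34c247_lc.LocalSymmetry.result :
    -- (1) one positive instance on which no small locally symmetric network that is never wrong answers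
    (∀ (Ω : Type) (_ : Fintype Ω) (_ : DecidableEq Ω) (r : ℕ) (β : Fin r × Fin 4 ↪ Ω),
      ∃ M0 ∈ Pos Ω, ∀ (K : Type) (C : PNet (Fac Ω) K) (yes no : Set K),
        (∀ M ∈ Pos Ω, C.val (cnt M) C.out ∉ no) →
        (∀ M ∈ Neg Ω, C.val (cnt M) C.out ∉ yes) →
        (∀ (v : Fin r) (x y z : Fin 4), x ≠ y → y ≠ z → x ≠ z →
          C.SymmUnder (facMap (cyc (β (v, x)) (β (v, y)) (β (v, z))))) →
        Fintype.card C.G < 2 ^ (r / 960) →
        C.val (cnt M0) C.out ∉ yes ∧ C.val (cnt M0) C.out ∉ no) ∧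
    -- (2) a small symmetric network with a random number for each variable: never wrong (1: yes,
    -- -1: no, 2: no answer), and it nearly always answers
    (∀ (Ω : Type) (_ : Fintype Ω) (_ : DecidableEq Ω), ∃ C : PNet (Fac Ω ⊕ Ω) ℤ,
      Fintype.card C.G ≤ 8 * (Fintype.card Ω + 1) ^ 8 ∧
      (∀ g : Equiv.Perm Ω, C.SymmUnder (coinMap g)) ∧
      (∀ M ∈ Pos Ω, ∀ a : Ω → ℕ, C.val (coinIn M a) C.out ∈ ({1, 2} : Set ℤ)) ∧
      (∀ M ∈ Neg Ω, ∀ a : Ω → ℕ, C.val (coinIn M a) C.out ∈ ({-1, 2} : Set ℤ)) ∧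
      ∀ M ∈ Pos Ω ∪ Neg Ω, ∀ L : ℕ, 0 < L →
        Nat.card {a : Ω → Fin L // C.val (coinIn M (fun x => (a x : ℕ))) C.out = 2} * L ≤
          3 * Fintype.card Ω * L ^ Fintype.card Ω) ∧
    -- (3) converse: how far local symmetry is from no symmetry
    (∀ (K Ω : Type) (_ : Fintype Ω) (_ : DecidableEq Ω) (r : ℕ) (β : Fin r × Fin 4 ↪ Ω)
      (C : PNet (Fac Ω) K) (enc : Prop → K),
      (∀ M ∈ Pos Ω ∪ Neg Ω, C.val (cnt M) C.out = enc (M ∈ Pos Ω)) →
      ∃ C' : PNet (Fac Ω) K,
        (∀ M ∈ Pos Ω ∪ Neg Ω, C'.val (cnt M) C'.out = enc (M ∈ Pos Ω)) ∧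
        (∀ g : Equiv.Perm Ω, Preserves β g → C'.SymmUnder (facMap g)) ∧
        Fintype.card C'.G = 24 ^ r * Fintype.card C.G + 1 ∧
        (∀ g', g' ≠ C'.out → ∃ g, C'.F g' = C.F g) ∧
        ∀ (o : Option ℕ) (k : K) (n : ℕ), 0 < n → C'.F C'.out o (n • ({k} : Multiset K)) = k) := by
  refine ⟨?_, ?_, ?_⟩
  · intro Ω _ _ r β
    exact lower_zero β
  · intro Ω _ _
    obtain ⟨C, h1, h2, h3⟩ := exists_sz_net Ω
    have hP : ∀ M ∈ Pos Ω, ∀ a : Ω → ℕ, C.val (coinIn M a) C.out =
        if eval (fun x => (a x : ℤ)) (M true).prod = 0 then 2 else 1 := by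
      intro M hM a
      rw [h3 M hM.1 a, ← hM.2.1]
      unfold ver
      rw [if_pos rfl]
    have hN : ∀ M ∈ Neg Ω, ∀ a : Ω → ℕ, C.val (coinIn M a) C.out =
        if eval (fun x => (a x : ℤ)) (M true).prod = 0 then 2 else -1 := by
      intro M hM a
      have h4 : eval (fun x => (a x : ℤ)) (M true).prod =
          -eval (fun x => (a x : ℤ)) (M false).prod := by
        rw [hM.2.1, map_neg]
      rw [h3 M hM.1 a]
      unfold ver
      by_cases h5 : eval (fun x => (a x : ℤ)) (M true).prod = 0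
      · have h6 : eval (fun x => (a x : ℤ)) (M false).prod = 0 := by
          rw [h5] at h4
          omega
        rw [h5, h6]
        simp
      · have h6 : ¬ (eval (fun x => (a x : ℤ)) (M true).prod =
            eval (fun x => (a x : ℤ)) (M false).prod) := by
          intro h7
          apply h5
          omega
        rw [if_neg h6, if_pos h4, if_neg h5]
    refine ⟨C, h1, h2, fun M hM a => ?_, fun M hM a => ?_, fun M hM L hL => ?_⟩
    · rw [hP M hM a]
      split_ifs <;> simp
    · rw [hN M hM a]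
      split_ifs <;> simp
    · have hI : M ∈ Inst Ω := by rcases hM with hM | hM <;> exact hM.1
      have hp : (M true).prod ≠ 0 := by rcases hM with hM | hM <;> exact hM.2.2
      have h4 := sz_count _ hp _ L (degree_inst M hI true) hL
      refine le_trans (le_of_eq ?_) h4
      congr 1
      refine Nat.card_congr (Equiv.subtypeEquivRight (fun a => ?_))
      rcases hM with hM | hM
      · rw [hP M hM (fun x => (a x : ℕ))]
        split_ifs with h5 <;> simp [h5]
      · rw [hN M hM (fun x => (a x : ℕ))]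
        split_ifs with h5 <;> simp [h5]
  · intro K Ω _ _ r β C enc hC
    exact exists_symm_sign β C enc hC

end Pool.Agent.H870R2.PC
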