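import Pool.Agent.H556R2.Complete

namespace Pool.Agent.Results.MP_34c247_lc.PeqZPPPi03

open H556R2 in
theorem result : Pi03Complete {A : Oracle | ClassP A = ClassZPP A} :=
  H556R2.P_eq_ZPP_complete

end Pool.Agent.Results.MP_34c247_lc.PeqZPPPi03
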