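import Pool.Agent.H556R2.SComplete

namespace Pool.Agent.Results.MP_34c247_lc.ZPFixedExponent

open H556R2 in
theorem result : Sigma04Complete {A : Oracle | ∃ c : ℕ, ClassZPTIME1 A ⊆ ClassDTIME c A} :=
  H556R2.fixed_exponent_ZPP_complete

end Pool.Agent.Results.MP_34c247_lc.ZPFixedExponent
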